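import Pool.Agent.Lib.MP_4eed4e_an_XK.KDefs

set_option autoImplicit false

/-!
Project X, block K, module KHomeo: maps close to the identity.
-/

namespace Pool.Agent.MP4eed4eX.K

open MeasureTheory Set Filter Topology Pool.Agent.MP4eed4eP

/-- Proof. Injective: `‖φ x - φ y‖ ≥ (1 - κ) ‖x - y‖`. Surjective: `x ↦ y - v x` is a contraction
(`ContractingWith.fixedPoint`). The inverse is Lipschitz, so continuous. Or
`ApproximatesLinearOn.toHomeomorph` for `ContinuousLinearEquiv.refl`. -/
theorem exists_homeo {v : P → P} {κ : NNReal} (hκ : κ < 1) (hv : LipschitzWith κ v) :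
    ∃ φ : P ≃ₜ P, ∀ x, φ x = x + v x := by
  have h1 : ApproximatesLinearOn (fun x : P => x + v x)
      ((ContinuousLinearEquiv.refl ℝ P : P ≃L[ℝ] P) : P →L[ℝ] P) univ κ := by
    intro x _ y _
    have h2 : x + v x - (y + v y) -
        ((ContinuousLinearEquiv.refl ℝ P : P ≃L[ℝ] P) : P →L[ℝ] P) (x - y) = v x - v y := by
      simp only [ContinuousLinearEquiv.coe_refl, ContinuousLinearMap.coe_id', id]
      abel
    change ‖x + v x - (y + v y) -
        ((ContinuousLinearEquiv.refl ℝ P : P ≃L[ℝ] P) : P →L[ℝ] P) (x - y)‖ ≤ κ * ‖x - y‖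
    rw [h2, ← dist_eq_norm, ← dist_eq_norm]
    exact hv.dist_le_mul x y
  have h3 : κ < ‖((ContinuousLinearEquiv.refl ℝ P : P ≃L[ℝ] P).symm : P →L[ℝ] P)‖₊⁻¹ := by
    have h4 : ‖((ContinuousLinearEquiv.refl ℝ P : P ≃L[ℝ] P).symm : P →L[ℝ] P)‖₊ = 1 := by
      change ‖ContinuousLinearMap.id ℝ P‖₊ = 1
      exact nnnorm_one
    rw [h4, inv_one]
    exact hκ
  refine ⟨ApproximatesLinearOn.toHomeomorph (fun x : P => x + v x) h1 (Or.inr h3), fun x => rfl⟩

/-- Proof. `∑ i, b i x • (d i - d' i)`; `C = ∑ i, K i`; `norm_le_pi_norm`. -/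
theorem lip_ph' {n : ℕ} {b : Fin n → P → ℝ} (hb : ∀ i, ∃ K, LipschitzWith K (b i)) :
    ∃ C : NNReal, ∀ d d' : Fin n → P,
      LipschitzWith (C * ‖d - d'‖₊) (fun x => ph b d x - ph b d' x) ∧
      LipschitzWith (C * ‖d‖₊) (fun x => ph b d x - x) := by
  choose K hK using hb
  have key : ∀ e : Fin n → P, LipschitzWith ((∑ i, K i) * ‖e‖₊) (fun x => ∑ i, b i x • e i) := by
    intro e
    refine LipschitzWith.of_dist_le_mul fun x y => ?_
    rw [dist_eq_norm, ← Finset.sum_sub_distrib]
    push_cast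
    rw [Finset.sum_mul, Finset.sum_mul]
    refine (norm_sum_le _ _).trans (Finset.sum_le_sum fun i _ => ?_)
    rw [← sub_smul, norm_smul]
    have h1 : ‖b i x - b i y‖ ≤ K i * dist x y := by
      rw [← dist_eq_norm]
      exact (hK i).dist_le_mul x y
    have h2 : ‖e i‖ ≤ ‖e‖ := norm_le_pi_norm e i
    calc ‖b i x - b i y‖ * ‖e i‖ ≤ (K i * dist x y) * ‖e‖ :=
          mul_le_mul h1 h2 (norm_nonneg _) (by positivity)
      _ = K i * ‖e‖ * dist x y := by ring
  refine ⟨∑ i, K i, fun d d' => ⟨?_, ?_⟩⟩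
  · have h1 : (fun x => ph b d x - ph b d' x) = fun x => ∑ i, b i x • (d - d') i := by
      funext x
      simp only [ph, Pi.sub_apply, smul_sub, Finset.sum_sub_distrib]
      abel
    rw [h1]
    exact key _
  · have h1 : (fun x => ph b d x - x) = fun x => ∑ i, b i x • d i := by
      funext x
      simp only [ph]
      abel
    rw [h1]
    exact key _

/-- Proof. For a point `x` not in the frontier the ball about `x` with the radius
`r = infDist x (frontier D) > 0` (the frontier is closed) does not meet the frontier, so it is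
contained in `D` or disjoint from `D` (a ball is preconnected:
`IsPreconnected.subset_of_disjoint`-like; `D` and the complement of its closure are open and cover
the ball). `ψ x` is in this ball, so `ψ x ∈ D ↔ x ∈ D`. For `x` in the frontier `x ∉ D` (`D` is
open) and `ψ x = x`. So `ψ x ∈ D ↔ x ∈ D` for all `x`, and `ψ` is surjective. -/
theorem label' {D : Set P} (hD : IsOpen D) (ψ : P ≃ₜ P) (hne : (frontier D).Nonempty)
    (h1 : ∀ x ∈ frontier D, ψ x = x)
    (h2 : ∀ x ∉ frontier D, dist (ψ x) x < Metric.infDist x (frontier D)) : ψ '' D = D := by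
  have cov : ∀ x y : P, dist y x < Metric.infDist x (frontier D) → (x ∈ D ↔ y ∈ D) := by
    intro x y hxy
    have h4 : 0 < Metric.infDist x (frontier D) := dist_nonneg.trans_lt hxy
    have h6 : ∀ z ∈ Metric.ball x (Metric.infDist x (frontier D)), z ∉ frontier D := by
      intro z hz hzf
      have h5 := Metric.infDist_le_dist_of_mem (x := x) hzf
      rw [Metric.mem_ball, dist_comm] at hz
      exact absurd hz (not_lt.2 h5)
    have h7 : ∀ z ∈ Metric.ball x (Metric.infDist x (frontier D)), z ∈ closure D → z ∈ D := by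
      intro z hz hzc
      by_contra hn
      exact h6 z hz ⟨hzc, by rwa [hD.interior_eq]⟩
    have h3 : IsPreconnected (Metric.ball x (Metric.infDist x (frontier D))) :=
      (convex_ball x _).isPreconnected
    have h8 := h3 D (closure D)ᶜ hD isClosed_closure.isOpen_compl (by
      intro z hz
      by_cases hzc : z ∈ closure D
      · exact Or.inl (h7 z hz hzc)
      · exact Or.inr hzc)
    have h9 : ∀ a ∈ Metric.ball x (Metric.infDist x (frontier D)),
        ∀ b ∈ Metric.ball x (Metric.infDist x (frontier D)), a ∈ D → b ∈ D := by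
      intro a ha b hb haD
      by_contra hbD
      obtain ⟨z, -, hz1, hz2⟩ := h8 ⟨a, ha, haD⟩ ⟨b, hb, fun h => hbD (h7 b hb h)⟩
      exact hz2 (subset_closure hz1)
    exact ⟨h9 x (Metric.mem_ball_self h4) y hxy, h9 y hxy x (Metric.mem_ball_self h4)⟩
  have key : ∀ x, ψ x ∈ D ↔ x ∈ D := by
    intro x
    by_cases hx : x ∈ frontier D
    · rw [h1 x hx]
    · exact (cov x _ (h2 x hx)).symm
  ext y
  constructor
  · rintro ⟨x, hx, rfl⟩
    exact (key x).2 hx
  · intro hy
    exact ⟨ψ.symm y, (key _).1 (by rwa [ψ.apply_symm_apply]), ψ.apply_symm_apply y⟩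

end Pool.Agent.MP4eed4eX.K
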