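import Pool.Agent.Lib.MP_4eed4e_an_XK.KHomeo

set_option autoImplicit false

/-!
Project X, block K, module KChart: the charts.
-/

namespace Pool.Agent.MP4eed4eX.K

open MeasureTheory Set Filter Topology Pool.Agent.MP4eed4eP

variable {n : ℕ} {p : Fin n → P} {E : Finset (Fin n × Fin n)} {b : Fin n → P → ℝ}

private theorem KChart_sum (hb : Hat p E b) (d : Fin n → P) (k : Fin n) :
    ∑ i, b i (p k) • d i = d k := by
  rw [Finset.sum_eq_single k]
  · rw [hb.vert, if_pos rfl, one_smul]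
  · intro i _ hi
    rw [hb.vert, if_neg hi, zero_smul]
  · intro h
    exact absurd (Finset.mem_univ k) h

/-- Proof. `ph b d (p k) = p k + ∑ i, b i (p k) • d i = p k + d k` by `Hat.vert`. -/
theorem ph_vert (hb : Hat p E b) (d : Fin n → P) (k : Fin n) : ph b d (p k) = p k + d k := by
  unfold ph
  rw [KChart_sum hb]

/-- Proof. `Hat.edge` and `ph_vert`. -/
theorem ph_edge (hb : Hat p E b) (d : Fin n → P) {e : Fin n × Fin n} (he : e ∈ E) {s : ℝ}
    (hs : s ∈ Icc (0 : ℝ) 1) : ph b d ((1 - s) • p e.1 + s • p e.2) =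
      (1 - s) • (p e.1 + d e.1) + s • (p e.2 + d e.2) := by
  have h1 : ∑ i, b i ((1 - s) • p e.1 + s • p e.2) • d i = (1 - s) • d e.1 + s • d e.2 := by
    rw [← KChart_sum hb d e.1, ← KChart_sum hb d e.2, Finset.smul_sum, Finset.smul_sum,
      ← Finset.sum_add_distrib]
    refine Finset.sum_congr rfl fun i _ => ?_
    rw [hb.edge i e he s hs, add_smul, mul_smul, mul_smul]
  unfold ph
  rw [h1, smul_add, smul_add]
  abel

/-- Proof. `segment_eq_image`, `ph_edge`. -/
theorem ph_seg (hb : Hat p E b) (d : Fin n → P) {e : Fin n × Fin n} (he : e ∈ E) :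
    ph b d '' segment ℝ (p e.1) (p e.2) = segment ℝ (p e.1 + d e.1) (p e.2 + d e.2) ∧
    ph b d '' openSegment ℝ (p e.1) (p e.2) = openSegment ℝ (p e.1 + d e.1) (p e.2 + d e.2) := by
  constructor
  · rw [segment_eq_image, segment_eq_image, image_image]
    exact image_congr fun s hs => ph_edge hb d he hs
  · rw [openSegment_eq_image, openSegment_eq_image, image_image]
    exact image_congr fun s hs => ph_edge hb d he (Ioo_subset_Icc_self hs)

theorem ph_Gr (hb : Hat p E b) (d : Fin n → P) :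
    ph b d '' Gr p E = Gr (fun i => p i + d i) E := by
  unfold Gr
  rw [image_union, ← range_comp, image_iUnion₂]
  congr 1
  · exact congrArg range (funext fun k => ph_vert hb d k)
  · exact iUnion₂_congr fun e he => (ph_seg hb d he).1

/-- Proof. All conditions are preserved by an injective map (`ph_vert`, `ph_seg`). -/
theorem ph_SLG (h : SLG p E) (hb : Hat p E b) {d : Fin n → P}
    (hi : Function.Injective (ph b d)) : SLG (fun i => p i + d i) E := by
  refine ⟨?_, h.lt, ?_, ?_⟩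
  · intro i j hij
    have h1 : ph b d (p i) = ph b d (p j) := by
      rw [ph_vert hb, ph_vert hb]
      exact hij
    exact h.inj (hi h1)
  · intro e he k hk
    have h1 : ph b d (p k) ∈ ph b d '' openSegment ℝ (p e.1) (p e.2) := by
      rw [ph_vert hb, (ph_seg hb d he).2]
      exact hk
    obtain ⟨x, hx, hxk⟩ := h1
    rw [hi hxk] at hx
    exact h.vert e he k hx
  · intro e he f hf hne
    rw [← (ph_seg hb d he).2, ← (ph_seg hb d hf).2]
    exact (disjoint_image_iff hi).2 (h.disj e he f hf hne)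

/-- Proof. Let `C` be as in `lip_ph'` and `ρ` with `C ρ ≤ 1 / 2`: `exists_homeo`. `ph_SLG`. A
homeomorphism maps open sets to open sets and the frontier to the frontier
(`Homeomorph.image_frontier`), bounded sets to bounded sets (Lipschitz); `ph_Gr`. Conversely
`D = φ ⁻¹' D'` (`φ.symm` is Lipschitz, so `D` is bounded; or: `‖φ x - x‖ ≤ ‖φ 0‖ + ‖x‖ / 2`;
`φ '' frontier D = frontier D' = φ '' Gr p E`). -/
theorem chart' (h : SLG p E) (hb : Hat p E b) : ∃ ρ > 0, ∀ d : Fin n → P, ‖d‖ < ρ →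
      (∃ φ : P ≃ₜ P, ∀ x, φ x = ph b d x) ∧ SLG (fun i => p i + d i) E ∧
      (∀ D, Fig D p E → Fig (ph b d '' D) (fun i => p i + d i) E) ∧
      ∀ D', Fig D' (fun i => p i + d i) E → ∃ D, Fig D p E ∧ D' = ph b d '' D := by
  obtain ⟨C, hC⟩ := lip_ph' hb.lip
  have hC0 : (0 : ℝ) ≤ C := C.2
  refine ⟨1 / (2 * ((C : ℝ) + 1)), by positivity, fun d hd => ?_⟩
  have hk : (C : ℝ) * ‖d‖ ≤ 1 / 2 := by
    have h1 : (C : ℝ) * ‖d‖ ≤ ((C : ℝ) + 1) * (1 / (2 * ((C : ℝ) + 1))) :=
      mul_le_mul (by linarith) hd.le (norm_nonneg d) (by linarith)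
    have h2 : ((C : ℝ) + 1) * (1 / (2 * ((C : ℝ) + 1))) = 1 / 2 := by
      have h3 : (C : ℝ) + 1 ≠ 0 := by linarith
      field_simp
    linarith
  have hv : LipschitzWith (C * ‖d‖₊) (fun x => ph b d x - x) := (hC d d).2
  have hκ : C * ‖d‖₊ < 1 := by
    rw [← NNReal.coe_lt_coe]
    push_cast
    linarith
  obtain ⟨φ, hφ⟩ := exists_homeo hκ hv
  have hφ' : ∀ x, φ x = ph b d x := by
    intro x
    rw [hφ x]
    abel
  have hfun : (φ : P → P) = ph b d := funext hφ'
  have hi : Function.Injective (ph b d) := by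
    rw [← hfun]
    exact φ.injective
  have hslg := ph_SLG h hb hi
  refine ⟨⟨φ, hφ'⟩, hslg, ?_, ?_⟩
  · intro D hD
    refine ⟨hslg, ?_, ?_, ?_⟩
    · rw [← hfun]
      exact φ.isOpenMap D hD.op
    · have h1 : LipschitzWith (1 + C * ‖d‖₊) (ph b d) := by
        have h2 := LipschitzWith.id.add hv
        have h3 : (fun x : P => id x + (ph b d x - x)) = ph b d := by
          funext x
          simp only [id]
          abel
        rwa [h3] at h2
      exact h1.isBounded_image hD.bdd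
    · rw [← hfun, ← φ.image_frontier, hD.fr, hfun]
      exact ph_Gr hb d
  · intro D' hD'
    refine ⟨φ ⁻¹' D', ⟨h, hD'.op.preimage φ.continuous, ?_, ?_⟩, ?_⟩
    · obtain ⟨R, hR⟩ := isBounded_iff_forall_norm_le.1 hD'.bdd
      rw [isBounded_iff_forall_norm_le]
      refine ⟨2 * (R + ‖ph b d 0 - 0‖), fun x hx => ?_⟩
      have h1 := hR (φ x) hx
      have h2 := hv.dist_le_mul x 0
      rw [dist_eq_norm, dist_zero_right] at h2
      push_cast at h2
      have h3 : ‖ph b d x - x‖ ≤ ‖ph b d x - x - (ph b d 0 - 0)‖ + ‖ph b d 0 - 0‖ := by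
        have h4 := norm_add_le (ph b d x - x - (ph b d 0 - 0)) (ph b d 0 - 0)
        rwa [sub_add_cancel] at h4
      have h5 : ‖x‖ ≤ ‖φ x‖ + ‖ph b d x - x‖ := by
        have h6 : x = φ x - (ph b d x - x) := by
          rw [hφ' x]
          abel
        calc ‖x‖ = ‖φ x - (ph b d x - x)‖ := by rw [← h6]
          _ ≤ _ := norm_sub_le _ _
      have h7 : (C : ℝ) * ‖d‖ * ‖x‖ ≤ 1 / 2 * ‖x‖ :=
        mul_le_mul_of_nonneg_right hk (norm_nonneg x)
      linarith
    · rw [← φ.preimage_frontier, hD'.fr, ← ph_Gr hb d, ← hfun, preimage_image_eq _ φ.injective]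
    · rw [← hfun, image_preimage_eq _ φ.surjective]

end Pool.Agent.MP4eed4eX.K
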