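import Pool.Agent.Lib.MP_4eed4e_an_X.XDefs

set_option autoImplicit false

/-!
Project X, block K (charts): definitions. Text: `/team-store/MP_4eed4e_PX.md`, section K.
-/

namespace Pool.Agent.MP4eed4eX.K

open MeasureTheory Set Filter Topology Pool.Agent.MP4eed4eP

/-- The edges and the vertices (as pairs `(k, k)`). -/
def FF {n : ℕ} (E : Finset (Fin n × Fin n)) : Finset (Fin n × Fin n) :=
  E ∪ Finset.univ.filter fun e => e.1 = e.2

/-- The point with the parameter `s` of the edge `e`. -/
noncomputable def pt {n : ℕ} (p : Fin n → P) (e : Fin n × Fin n) (s : ℝ) : P :=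
  (1 - s) • p e.1 + s • p e.2

/-- The affine interpolation on the edge `e`. -/
noncomputable def hh {n : ℕ} (g : Fin n → ℝ) (e : Fin n × Fin n) (s : ℝ) : ℝ :=
  (1 - s) * g e.1 + s * g e.2

/-- The `l¹` norm. -/
def N1 (v : P) : ℝ := |v.1| + |v.2|

/-- The minimum over a segment of an affine function plus a multiple of the `l¹` distance. -/
noncomputable def mm (a b : P) (α β C : ℝ) (x : P) : ℝ :=
  sInf ((fun s : ℝ => (1 - s) * α + s * β + C * N1 (x - ((1 - s) • a + s • b))) '' Icc 0 1)

end Pool.Agent.MP4eed4eX.K
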