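import Pool.Agent.Lib.MP_4eed4e_an_XK.KDefs

set_option autoImplicit false

/-!
Project X, block K, module KFin: finitely many figures with given graph; arrangements of lines.
-/

namespace Pool.Agent.MP4eed4eX.K

open MeasureTheory Set Filter Topology Pool.Agent.MP4eed4eP

/-- The value of the affine function `t`. -/
def af (t : ℝ × ℝ × ℝ) (x : P) : ℝ := t.1 + t.2.1 * x.1 + t.2.2 * x.2

/-- Two points on the same sides of the lines `af t = 0`, `t ∈ A`, and on none of the lines. -/
def Same (A : Finset (ℝ × ℝ × ℝ)) (x y : P) : Prop := ∀ t ∈ A, 0 < af t x * af t y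

private theorem KFin_cont (t : ℝ × ℝ × ℝ) : Continuous (af t) := by
  unfold af
  fun_prop

private theorem KFin_dense (t : ℝ × ℝ × ℝ) (ht : (t.2.1, t.2.2) ≠ (0, 0)) :
    Dense {x : P | af t x ≠ 0} := by
  intro x
  by_cases hx : af t x = 0
  · have hpos : 0 < t.2.1 ^ 2 + t.2.2 ^ 2 := by
      by_contra hneg
      have h1 : t.2.1 = 0 := by nlinarith [sq_nonneg t.2.1, sq_nonneg t.2.2]
      have h2 : t.2.2 = 0 := by nlinarith [sq_nonneg t.2.1, sq_nonneg t.2.2]
      exact ht (by rw [h1, h2])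
    have hc : Continuous (fun s : ℝ => ((x.1 + s * t.2.1, x.2 + s * t.2.2) : P)) := by
      fun_prop
    have hlim : Tendsto (fun s : ℝ => ((x.1 + s * t.2.1, x.2 + s * t.2.2) : P))
        (𝓝[≠] 0) (𝓝 x) := by
      have h0 := (hc.tendsto 0).mono_left (nhdsWithin_le_nhds (s := {0}ᶜ))
      simpa using h0
    refine mem_closure_of_tendsto hlim ?_
    filter_upwards [self_mem_nhdsWithin] with s hs
    have he : af t ((x.1 + s * t.2.1, x.2 + s * t.2.2) : P) =
        af t x + s * (t.2.1 ^ 2 + t.2.2 ^ 2) := by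
      simp only [af]
      ring
    show af t ((x.1 + s * t.2.1, x.2 + s * t.2.2) : P) ≠ 0
    rw [he, hx, zero_add]
    exact mul_ne_zero hs hpos.ne'
  · exact subset_closure hx

/-- The complement of finitely many lines is dense. Proof. Its complement is a finite union of
closed sets with empty interior (`af t` is a nonconstant affine function), or a null set. -/
theorem dense_off (A : Finset (ℝ × ℝ × ℝ)) (hA : ∀ t ∈ A, (t.2.1, t.2.2) ≠ (0, 0)) :
    Dense {x : P | ∀ t ∈ A, af t x ≠ 0} := by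
  have h1 : {x : P | ∀ t ∈ A, af t x ≠ 0} = ⋂ t ∈ (A : Set (ℝ × ℝ × ℝ)), {x : P | af t x ≠ 0} := by
    ext x
    simp
  rw [h1]
  refine dense_biInter_of_isOpen ?_ A.finite_toSet.countable ?_
  · intro t _
    exact (KFin_cont t).isOpen_preimage _ isOpen_ne
  · intro t ht
    exact KFin_dense t (hA t ht)

/-- Proof. The line through `a` and `b` (the vertical line through `a` if `a = b`). -/
theorem exists_line (a b : P) : ∃ t : ℝ × ℝ × ℝ, (t.2.1, t.2.2) ≠ (0, 0) ∧
    ∀ x ∈ segment ℝ a b, af t x = 0 := by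
  by_cases h : a = b
  · subst h
    refine ⟨(-a.1, 1, 0), by simp, ?_⟩
    intro x hx
    rw [segment_same, mem_singleton_iff] at hx
    subst hx
    simp [af]
  · refine ⟨(-((a.2 - b.2) * a.1 + (b.1 - a.1) * a.2), a.2 - b.2, b.1 - a.1), ?_, ?_⟩
    · intro h0
      have h1 : a.2 - b.2 = 0 := congrArg Prod.fst h0
      have h2 : b.1 - a.1 = 0 := congrArg Prod.snd h0
      exact h (Prod.ext (by linarith) (by linarith))
    · rintro x ⟨u, v, _, _, huv, rfl⟩
      have hu : u = 1 - v := by linarith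
      subst hu
      simp only [af, Prod.fst_add, Prod.snd_add, Prod.smul_fst, Prod.smul_snd, smul_eq_mul]
      ring

private theorem KFin_conn {S D : Set P} (hS : IsPreconnected S) (hD : IsOpen D)
    (hne : (S ∩ D).Nonempty) (hf : Disjoint S (frontier D)) : S ⊆ D := by
  refine hS.subset_of_closure_inter_subset hD hne ?_
  rintro z ⟨hz, hzS⟩
  by_contra hzD
  have hzf : z ∈ frontier D := ⟨hz, by rwa [hD.interior_eq]⟩
  exact Set.disjoint_left.mp hf hzS hzf

private theorem KFin_af_comb (t : ℝ × ℝ × ℝ) {x y : P} {u v : ℝ} (h : u + v = 1) :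
    af t (u • x + v • y) = u * af t x + v * af t y := by
  have hu : u = 1 - v := by linarith
  subst hu
  simp only [af, Prod.fst_add, Prod.snd_add, Prod.smul_fst, Prod.smul_snd, smul_eq_mul]
  ring

/-- Proof. The segment `[x, y]` does not meet the lines (`af t` is affine and has the same sign at
`x` and `y`), so it does not meet the frontier of `D`; it is preconnected and `D` is open. -/
theorem same_mem {A : Finset (ℝ × ℝ × ℝ)} {D : Set P} (hD : IsOpen D)
    (hf : ∀ x ∈ frontier D, ∃ t ∈ A, af t x = 0) {x y : P} (h : Same A x y) (hx : x ∈ D) :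
    y ∈ D := by
  have hseg : segment ℝ x y ⊆ D := by
    refine KFin_conn (convex_segment x y).isPreconnected hD ⟨x, left_mem_segment ℝ x y, hx⟩ ?_
    rw [Set.disjoint_left]
    intro z hz hzf
    obtain ⟨t, ht, hz0⟩ := hf z hzf
    obtain ⟨u, v, hu, hv, huv, rfl⟩ := hz
    rw [KFin_af_comb t huv] at hz0
    have hs := h t ht
    rcases mul_pos_iff.mp hs with ⟨h1, h2⟩ | ⟨h1, h2⟩
    · rcases hu.eq_or_lt with h0 | h0
      · subst h0
        have : v = 1 := by linarith
        subst this
        linarith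
      · nlinarith [mul_pos h0 h1, mul_nonneg hv h2.le]
    · rcases hu.eq_or_lt with h0 | h0
      · subst h0
        have : v = 1 := by linarith
        subst this
        linarith
      · nlinarith [mul_pos h0 (neg_pos.mpr h1), mul_nonneg hv (neg_pos.mpr h2).le]
  exact hseg (right_mem_segment ℝ x y)

private noncomputable def KFin_sig (A : Finset (ℝ × ℝ × ℝ)) (D : Set P) : Set (A → Prop) :=
  {s | ∃ x ∈ D, (∀ t ∈ A, af t x ≠ 0) ∧ ∀ t : A, s t ↔ 0 < af t.1 x}

private theorem KFin_sub {n : ℕ} {p : Fin n → P} {E : Finset (Fin n × Fin n)}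
    {A : Finset (ℝ × ℝ × ℝ)} (hA : ∀ t ∈ A, (t.2.1, t.2.2) ≠ (0, 0)) {D D' : Set P}
    (hD : Fig D p E) (hD' : Fig D' p E) (hf : ∀ x ∈ frontier D', ∃ t ∈ A, af t x = 0)
    (hS : KFin_sig A D = KFin_sig A D') : D ⊆ D' := by
  intro x hx
  obtain ⟨r, hr, hB⟩ := Metric.isOpen_iff.mp hD.op x hx
  obtain ⟨y, hyB, hy⟩ := (dense_off A hA).inter_open_nonempty (Metric.ball x r) Metric.isOpen_ball
    ⟨x, Metric.mem_ball_self hr⟩
  have hmem : (fun t : A => 0 < af t.1 y) ∈ KFin_sig A D := ⟨y, hB hyB, hy, fun _ => Iff.rfl⟩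
  rw [hS] at hmem
  obtain ⟨y', hy', hy'0, hs⟩ := hmem
  have hsame : Same A y' y := by
    intro t ht
    have h1 : 0 < af t y ↔ 0 < af t y' := hs ⟨t, ht⟩
    rcases lt_or_gt_of_ne (hy t ht) with h | h
    · have h2 : ¬ 0 < af t y' := fun h' => absurd (h1.mpr h') (not_lt.mpr h.le)
      have h3 : af t y' < 0 := lt_of_le_of_ne (not_lt.mp h2) (hy'0 t ht)
      exact mul_pos_of_neg_of_neg h3 h
    · exact mul_pos (h1.mp h) h
  have hyD' : y ∈ D' := same_mem hD'.op hf hsame hy'
  have hsub : Metric.ball x r ⊆ D' := by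
    refine KFin_conn (convex_ball x r).isPreconnected hD'.op ⟨y, hyB, hyD'⟩ ?_
    rw [Set.disjoint_left]
    intro z hz hzf
    rw [hD'.fr, ← hD.fr] at hzf
    have h1 : z ∈ interior D := by
      rw [hD.op.interior_eq]
      exact hB hz
    exact hzf.2 h1
  exact hsub (Metric.mem_ball_self hr)

/-- Proof. Lines through all the edges and all the vertices (`exists_line`), a finite set `A`, for
`p, E`. Let `S D` be the set of the sign vectors `A → Bool` (`0 < af t x`) of the points
`x ∈ D` which are on none of the lines; `S` takes finitely many values, and it is injective on the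
set: if `S D = S D'` and `x ∈ D` then there is a ball `B ⊆ D` about `x`, a point `y ∈ B` off the
lines (`dense_off`), a point `y' ∈ D'` with `Same A y y'`, so `y ∈ D'` (`same_mem`); `B` does not
meet the frontier of `D'` (it is the same as that of `D`, and `D ∩ frontier D = ∅`), so `B ⊆ D'`
(preconnected), `x ∈ D'`. `Set.Finite.of_injOn`-like / `Set.Finite.of_finite_image`. -/
theorem finite_fig' {n : ℕ} (p : Fin n → P) (E : Finset (Fin n × Fin n)) :
    {D : Set P | Fig D p E}.Finite := by
  classical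
  choose L hL hL0 using exists_line
  set A : Finset (ℝ × ℝ × ℝ) := Finset.univ.image (fun i : Fin n => L (p i) (p i)) ∪
    E.image (fun e => L (p e.1) (p e.2)) with hAdef
  have hA : ∀ t ∈ A, (t.2.1, t.2.2) ≠ (0, 0) := by
    intro t ht
    rw [hAdef, Finset.mem_union, Finset.mem_image, Finset.mem_image] at ht
    rcases ht with ⟨i, _, rfl⟩ | ⟨e, _, rfl⟩
    · exact hL _ _
    · exact hL _ _
  have hfr : ∀ D : Set P, Fig D p E → ∀ x ∈ frontier D, ∃ t ∈ A, af t x = 0 := by
    intro D hD x hx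
    rw [hD.fr] at hx
    rcases hx with ⟨i, rfl⟩ | hx
    · refine ⟨L (p i) (p i), ?_, hL0 _ _ _ (left_mem_segment ℝ _ _)⟩
      rw [hAdef, Finset.mem_union]
      exact Or.inl (Finset.mem_image.mpr ⟨i, Finset.mem_univ i, rfl⟩)
    · rw [mem_iUnion₂] at hx
      obtain ⟨e, he, hx⟩ := hx
      refine ⟨L (p e.1) (p e.2), ?_, hL0 _ _ _ hx⟩
      rw [hAdef, Finset.mem_union]
      exact Or.inr (Finset.mem_image.mpr ⟨e, he, rfl⟩)
  refine Set.Finite.of_finite_image (f := fun D => KFin_sig A D) (Set.toFinite _) ?_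
  intro D hD D' hD' hS
  exact Subset.antisymm (KFin_sub hA hD hD' (hfr D' hD') hS)
    (KFin_sub hA hD' hD (hfr D hD) hS.symm)

end Pool.Agent.MP4eed4eX.K
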