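import Pool.Agent.Lib.MP_4eed4e_an_XK.KHat
import Pool.Agent.Lib.MP_4eed4e_an_XK.KChart
import Pool.Agent.Lib.MP_4eed4e_an_XK.KFin

set_option autoImplicit false

/-!
Project X, block K, module KEnd.
-/

namespace Pool.Agent.MP4eed4eX.K

open MeasureTheory Set Filter Topology Pool.Agent.MP4eed4eP

/-- Proof. For `p` in the set take `b` (`exists_hat'`) and `ρ` (`chart'`); the ball of the radius
`ρ` about `p` is in the set. -/
theorem isOpen_SLG' {n : ℕ} (E : Finset (Fin n × Fin n)) :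
    IsOpen {p : Fin n → P | SLG p E} := by
  rw [Metric.isOpen_iff]
  intro p hp
  obtain ⟨b, hb⟩ := exists_hat' hp
  obtain ⟨ρ, hρ, h1⟩ := chart' hp hb
  refine ⟨ρ, hρ, fun q hq => ?_⟩
  have h2 := (h1 (q - p) (by rwa [← dist_eq_norm])).2.1
  have h3 : (fun i => p i + (q - p) i) = q := by
    funext i
    rw [Pi.sub_apply, add_sub_cancel]
  rwa [h3] at h2

end Pool.Agent.MP4eed4eX.K
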