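import Pool.Agent.Lib.MP_4eed4e_an_XK.KMin

set_option autoImplicit false

/-!
Project X, block K, module KWpa: weakly piecewise affine functions.
-/

namespace Pool.Agent.MP4eed4eX.K

open MeasureTheory Set Filter Topology Pool.Agent.MP4eed4eP

private theorem KWpa_abs (u k s : ℝ) (h : ¬ (k ≠ 0 ∧ s = u / k)) :
    ∃ σ : ℝ, ∀ᶠ t in 𝓝 s, |u - t * k| = σ * (u - t * k) := by
  by_cases hk : k = 0
  · subst hk
    rcases abs_choice u with hu | hu
    · exact ⟨1, Eventually.of_forall fun t => by simpa using hu⟩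
    · exact ⟨-1, Eventually.of_forall fun t => by simpa using hu⟩
  · have hs : u - s * k ≠ 0 := by
      intro h0
      apply h
      refine ⟨hk, ?_⟩
      rw [eq_div_iff hk]
      linarith
    have hc : Continuous fun t : ℝ => u - t * k := by fun_prop
    rcases lt_or_gt_of_ne hs with h1 | h1
    · refine ⟨-1, ?_⟩
      have h2 : ∀ᶠ t in 𝓝 s, u - t * k < 0 := hc.continuousAt.eventually_lt_const h1
      filter_upwards [h2] with t ht
      rw [abs_of_neg ht]
      ring
    · refine ⟨1, ?_⟩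
      have h2 : ∀ᶠ t in 𝓝 s, 0 < u - t * k := hc.continuousAt.eventually_const_lt h1
      filter_upwards [h2] with t ht
      rw [abs_of_pos ht]
      ring

/-- The minimum of a convex piecewise affine function on `[0, 1]`. Proof. Let `s` be the smallest
minimiser (the set of the minimisers is compact and not empty). If `s` is not in the list then
`0 < s < 1` and near `s` none of the two arguments changes its sign (an argument with `k i ≠ 0` is
not zero at `s`, an argument with `k i = 0` is constant), so the function is affine near `s`; it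
has a minimum at the interior point `s`, so it is constant near `s`, and there is a smaller
minimiser. -/
theorem min_break (α β C : ℝ) (u1 k1 u2 k2 : ℝ) :
    ∃ s ∈ Icc (0 : ℝ) 1, (s = 0 ∨ s = 1 ∨ (k1 ≠ 0 ∧ s = u1 / k1) ∨ (k2 ≠ 0 ∧ s = u2 / k2)) ∧
      ∀ t ∈ Icc (0 : ℝ) 1, (1 - s) * α + s * β + C * (|u1 - s * k1| + |u2 - s * k2|) ≤
        (1 - t) * α + t * β + C * (|u1 - t * k1| + |u2 - t * k2|) := by
  set F : ℝ → ℝ := fun t => (1 - t) * α + t * β + C * (|u1 - t * k1| + |u2 - t * k2|) with hF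
  have hFc : Continuous F := by
    rw [hF]
    fun_prop
  obtain ⟨s0, hs0, hmin0⟩ := isCompact_Icc.exists_isMinOn (s := Icc (0 : ℝ) 1)
    ⟨0, by simp⟩ hFc.continuousOn
  -- the set of the minimisers
  set S : Set ℝ := {t | t ∈ Icc (0 : ℝ) 1 ∧ F t = F s0} with hS
  have hSc : IsCompact S := by
    have h1 : IsClosed {t | F t = F s0} := isClosed_eq hFc continuous_const
    exact isCompact_Icc.inter_right h1
  have hSne : S.Nonempty := ⟨s0, hs0, rfl⟩
  obtain ⟨s, hsS, hsm⟩ := hSc.exists_isMinOn hSne continuous_id.continuousOn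
  have hsI : s ∈ Icc (0 : ℝ) 1 := hsS.1
  have hsmin : ∀ t ∈ Icc (0 : ℝ) 1, F s ≤ F t := by
    intro t ht
    rw [hsS.2]
    exact hmin0 ht
  refine ⟨s, hsI, ?_, hsmin⟩
  by_contra hcon
  push Not at hcon
  obtain ⟨h0, h1, h2, h3⟩ := hcon
  obtain ⟨σ1, hσ1⟩ := KWpa_abs u1 k1 s (fun h => h2 h.1 h.2)
  obtain ⟨σ2, hσ2⟩ := KWpa_abs u2 k2 s (fun h => h3 h.1 h.2)
  have hs0' : 0 < s := lt_of_le_of_ne hsI.1 (Ne.symm h0)
  have hs1' : s < 1 := lt_of_le_of_ne hsI.2 h1
  have hI : ∀ᶠ t in 𝓝 s, t ∈ Icc (0 : ℝ) 1 := Icc_mem_nhds hs0' hs1'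
  obtain ⟨ε, hε, hball⟩ := Metric.eventually_nhds_iff.1 (hσ1.and (hσ2.and hI))
  -- the slope
  set q : ℝ := β - α - C * (σ1 * k1 + σ2 * k2) with hq
  have hform : ∀ t, dist t s < ε → F t = F s + q * (t - s) := by
    intro t ht
    obtain ⟨a1, a2, -⟩ := hball ht
    obtain ⟨b1, b2, -⟩ := hball (show dist s s < ε by simpa using hε)
    simp only [hF]
    rw [a1, a2, b1, b2, hq]
    ring
  have hp : dist (s + ε / 2) s < ε := by
    rw [Real.dist_eq, add_sub_cancel_left, abs_of_pos (by positivity)]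
    linarith
  have hm : dist (s - ε / 2) s < ε := by
    rw [Real.dist_eq, show s - ε / 2 - s = -(ε / 2) by ring, abs_neg,
      abs_of_pos (by positivity)]
    linarith
  have e1 := hform _ hp
  have e2 := hform _ hm
  have f1 := hsmin _ (hball hp).2.2
  have f2 := hsmin _ (hball hm).2.2
  have hq0 : q = 0 := by
    have g1 : 0 ≤ q * (ε / 2) := by
      have : q * (s + ε / 2 - s) = q * (ε / 2) := by ring
      linarith
    have g2 : 0 ≤ -(q * (ε / 2)) := by
      have : q * (s - ε / 2 - s) = -(q * (ε / 2)) := by ring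
      linarith
    have g3 : q * (ε / 2) = 0 := by linarith
    rcases mul_eq_zero.1 g3 with g4 | g4
    · exact g4
    · exfalso
      linarith
  have hmem : s - ε / 2 ∈ S := by
    refine ⟨(hball hm).2.2, ?_⟩
    rw [e2, hq0, zero_mul, add_zero]
    exact hsS.2
  have := hsm hmem
  simp only [id, mem_ofPred_eq] at this
  linarith

/-- The affine function with the parameter `c` and the signs `σ`. -/
private noncomputable def KWpa_t (a b : P) (α β C : ℝ) (z : (ℝ × ℝ × ℝ) × ℝ × ℝ) : ℝ × ℝ × ℝ :=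
  (α + z.1.1 * (β - α) + C * (z.2.1 * (-a.1 - z.1.1 * (b.1 - a.1)) +
      z.2.2 * (-a.2 - z.1.1 * (b.2 - a.2))),
    z.1.2.1 * (β - α) + C * (z.2.1 * (1 - z.1.2.1 * (b.1 - a.1)) +
      z.2.2 * (-(z.1.2.1 * (b.2 - a.2)))),
    z.1.2.2 * (β - α) + C * (z.2.1 * (-(z.1.2.2 * (b.1 - a.1))) +
      z.2.2 * (1 - z.1.2.2 * (b.2 - a.2))))

private theorem KWpa_sign (r : ℝ) : ∃ σ ∈ ({1, -1} : Finset ℝ), |r| = σ * r := by
  rcases abs_choice r with h | h
  · exact ⟨1, by simp, by rw [h]; ring⟩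
  · exact ⟨-1, by simp, by rw [h]; ring⟩

/-- Proof. `min_break` with `u = x - a`, `k = b - a`. For every choice of `s` in the list (an
affine function of `x`) and of the two signs the value is an affine function of `x`
(`|r| = r` or `|r| = -r`): 16 affine functions. -/
theorem wpa_mm (a b : P) (α β C : ℝ) : WPA (mm a b α β C) := by
  classical
  set S : Finset (ℝ × ℝ × ℝ) := {(0, 0, 0), (1, 0, 0),
    (-(a.1 / (b.1 - a.1)), 1 / (b.1 - a.1), 0), (-(a.2 / (b.2 - a.2)), 0, 1 / (b.2 - a.2))}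
    with hS
  refine ⟨(S ×ˢ (({1, -1} : Finset ℝ) ×ˢ ({1, -1} : Finset ℝ))).image (KWpa_t a b α β C), ?_⟩
  intro x
  obtain ⟨s, hs, hlist, hmin⟩ := min_break α β C (x.1 - a.1) (b.1 - a.1) (x.2 - a.2) (b.2 - a.2)
  have hN : ∀ t : ℝ, N1 (x - ((1 - t) • a + t • b)) =
      |x.1 - a.1 - t * (b.1 - a.1)| + |x.2 - a.2 - t * (b.2 - a.2)| := by
    intro t
    unfold N1
    have h1 : (x - ((1 - t) • a + t • b)).1 = x.1 - a.1 - t * (b.1 - a.1) := by
      simp only [Prod.fst_sub, Prod.fst_add, Prod.smul_fst, smul_eq_mul]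
      ring
    have h2 : (x - ((1 - t) • a + t • b)).2 = x.2 - a.2 - t * (b.2 - a.2) := by
      simp only [Prod.snd_sub, Prod.snd_add, Prod.smul_snd, smul_eq_mul]
      ring
    rw [h1, h2]
  have hval : mm a b α β C x = (1 - s) * α + s * β +
      C * (|x.1 - a.1 - s * (b.1 - a.1)| + |x.2 - a.2 - s * (b.2 - a.2)|) := by
    apply le_antisymm
    · have h := mm_le a b α β C x hs
      rwa [hN] at h
    · obtain ⟨t, ht, h⟩ := mm_attained a b α β C x
      rw [h, hN]
      exact hmin t ht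
  obtain ⟨σ1, hσ1, e1⟩ := KWpa_sign (x.1 - a.1 - s * (b.1 - a.1))
  obtain ⟨σ2, hσ2, e2⟩ := KWpa_sign (x.2 - a.2 - s * (b.2 - a.2))
  obtain ⟨c, hc, hsc⟩ : ∃ c ∈ S, s = c.1 + c.2.1 * x.1 + c.2.2 * x.2 := by
    rcases hlist with h | h | ⟨hk, h⟩ | ⟨hk, h⟩
    · exact ⟨(0, 0, 0), by simp [hS], by simp [h]⟩
    · exact ⟨(1, 0, 0), by simp [hS], by simp [h]⟩
    · refine ⟨(-(a.1 / (b.1 - a.1)), 1 / (b.1 - a.1), 0), by simp [hS], ?_⟩
      rw [h]
      field_simp
      ring
    · refine ⟨(-(a.2 / (b.2 - a.2)), 0, 1 / (b.2 - a.2)), by simp [hS], ?_⟩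
      rw [h]
      field_simp
      ring
  refine ⟨KWpa_t a b α β C (c, σ1, σ2), ?_, ?_⟩
  · exact Finset.mem_image_of_mem _
      (Finset.mem_product.2 ⟨hc, Finset.mem_product.2 ⟨hσ1, hσ2⟩⟩)
  · rw [hval, e1, e2, hsc]
    unfold KWpa_t
    ring

theorem wpa_min {f g : P → ℝ} (hf : WPA f) (hg : WPA g) : WPA (fun x => min (f x) (g x)) := by
  classical
  obtain ⟨A, hA⟩ := hf
  obtain ⟨B, hB⟩ := hg
  refine ⟨A ∪ B, fun x => ?_⟩
  rcases min_choice (f x) (g x) with h | h
  · obtain ⟨t, ht, e⟩ := hA x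
    exact ⟨t, Finset.mem_union_left _ ht, h.trans e⟩
  · obtain ⟨t, ht, e⟩ := hB x
    exact ⟨t, Finset.mem_union_right _ ht, h.trans e⟩

/-- Proof. Induction with `wpa_min` (`Finset.inf'_insert`-like), or: the value of `Finset.inf'` is
attained (`Finset.exists_mem_eq_inf'`), take the union of the lists. -/
theorem wpa_inf {ι : Type*} (F : Finset ι) (hF : F.Nonempty) {f : ι → P → ℝ}
    (hf : ∀ i ∈ F, WPA (f i)) : WPA (fun x => F.inf' hF (fun i => f i x)) := by
  classical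
  choose! A hA using hf
  refine ⟨F.biUnion A, fun x => ?_⟩
  obtain ⟨i, hi, h⟩ := Finset.exists_mem_eq_inf' hF (fun i => f i x)
  obtain ⟨t, ht, e⟩ := hA i hi x
  exact ⟨t, Finset.mem_biUnion.2 ⟨i, hi, ht⟩, h.trans e⟩

end Pool.Agent.MP4eed4eX.K
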