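import Pool.Agent.Lib.MP_4eed4e_an_XK.KLipG
import Pool.Agent.Lib.MP_4eed4e_an_XK.KWpa

set_option autoImplicit false

/-!
Project X, block K, module KHat: hat functions.
-/

namespace Pool.Agent.MP4eed4eX.K

open MeasureTheory Set Filter Topology Pool.Agent.MP4eed4eP

variable {n : ℕ} {p : Fin n → P} {E : Finset (Fin n × Fin n)}

private theorem KHat_diag (E : Finset (Fin n × Fin n)) (k : Fin n) : (k, k) ∈ FF E := by
  unfold FF
  exact Finset.mem_union_right _ (Finset.mem_filter.2 ⟨Finset.mem_univ _, rfl⟩)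

private theorem KHat_N1_zero : N1 (0 : P) = 0 := by
  unfold N1
  simp

/-- The McShane extension. Proof. Let `C` be the constant of `lip_gr` for `g`, and
`f x = F.inf' _ (fun e => mm (p e.1) (p e.2) (g e.1) (g e.2) C x)`, `F = FF E` (not empty if
`n > 0`; for `n = 0` take `f = 0`). Lipschitz: `mm_lip`, `N1_le`, and a finite infimum of
Lipschitz functions is Lipschitz. `wpa_inf`, `wpa_mm`. Value at `pt p e s`: it is at most
`hh g e s` by `mm_le`, and at least: the minimum is attained at some `f, t` (`mm_attained`), and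
`hh g f t + C * N1 (pt p e s - pt p f t) ≥ hh g f t + C * ‖..‖ ≥ hh g e s` (`norm_le_N1`,
`lip_gr`). -/
theorem extend (h : SLG p E) (g : Fin n → ℝ) :
    ∃ f : P → ℝ, (∃ K, LipschitzWith K f) ∧ WPA f ∧
      ∀ e ∈ FF E, ∀ s ∈ Icc (0 : ℝ) 1, f (pt p e s) = hh g e s := by
  rcases Nat.eq_zero_or_pos n with hn | hn
  · subst hn
    refine ⟨fun _ => 0, ⟨0, LipschitzWith.const 0⟩, ⟨{(0, 0, 0)}, fun x => ⟨(0, 0, 0),
      Finset.mem_singleton_self _, ?_⟩⟩, fun e _ => e.1.elim0⟩
    simp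
  have hF : (FF E).Nonempty := ⟨(⟨0, hn⟩, ⟨0, hn⟩), KHat_diag E _⟩
  obtain ⟨C, hC, hlip⟩ := lip_gr h g
  obtain ⟨f, hf⟩ : ∃ f : P → ℝ, f = fun x =>
      (FF E).inf' hF fun e => mm (p e.1) (p e.2) (g e.1) (g e.2) C x := ⟨_, rfl⟩
  have hle : ∀ x, ∀ e ∈ FF E, f x ≤ mm (p e.1) (p e.2) (g e.1) (g e.2) C x := by
    intro x e he
    rw [hf]
    exact Finset.inf'_le _ he
  have hat : ∀ x, ∃ e ∈ FF E, f x = mm (p e.1) (p e.2) (g e.1) (g e.2) C x := by
    intro x
    obtain ⟨e, he, h1⟩ := Finset.exists_mem_eq_inf' hF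
      fun e => mm (p e.1) (p e.2) (g e.1) (g e.2) C x
    refine ⟨e, he, ?_⟩
    rw [hf]
    exact h1
  have h1 : ∀ x y, f x - f y ≤ C * N1 (x - y) := by
    intro x y
    obtain ⟨e, he, h2⟩ := hat y
    have h3 := hle x e he
    have h4 := mm_lip (p e.1) (p e.2) (g e.1) (g e.2) hC x y
    have h5 := (abs_le.1 h4).2
    rw [h2]
    linarith
  have hN : ∀ v : P, N1 (-v) = N1 v := by
    intro v
    unfold N1
    rw [Prod.fst_neg, Prod.snd_neg, abs_neg, abs_neg]
  refine ⟨f, ⟨⟨C * 2, by positivity⟩, LipschitzWith.of_dist_le_mul fun x y => ?_⟩, ?_, ?_⟩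
  · have h2 := h1 x y
    have h3 := h1 y x
    rw [← neg_sub x y, hN] at h3
    have h4 := N1_le (x - y)
    have h5 : C * N1 (x - y) ≤ C * (2 * ‖x - y‖) := mul_le_mul_of_nonneg_left h4 hC
    rw [Real.dist_eq, dist_eq_norm]
    change |f x - f y| ≤ C * 2 * ‖x - y‖
    rw [abs_le]
    constructor <;> linarith
  · rw [hf]
    exact wpa_inf (FF E) hF fun e _ => wpa_mm _ _ _ _ _
  · intro e he s hs
    apply le_antisymm
    · have h2 := hle (pt p e s) e he
      have h3 := mm_le (p e.1) (p e.2) (g e.1) (g e.2) C (pt p e s) hs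
      have h4 : pt p e s - ((1 - s) • p e.1 + s • p e.2) = 0 := sub_self _
      rw [h4, KHat_N1_zero, mul_zero, add_zero] at h3
      exact h2.trans h3
    · obtain ⟨e', he', h2⟩ := hat (pt p e s)
      obtain ⟨t, ht, h3⟩ := mm_attained (p e'.1) (p e'.2) (g e'.1) (g e'.2) C (pt p e s)
      have h4 := hlip e he e' he' s hs t ht
      have h5 := (abs_le.1 h4).2
      have h6 := mul_le_mul_of_nonneg_left (norm_le_N1 (pt p e s - pt p e' t)) hC
      rw [h2, h3]
      change hh g e s ≤ hh g e' t + C * N1 (pt p e s - pt p e' t)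
      linarith

/-- Proof. `extend` for `g k = if i = k then 1 else 0`. -/
theorem exists_hat' (h : SLG p E) : ∃ b, Hat p E b := by
  have h1 := fun i : Fin n => extend h fun k => if i = k then (1 : ℝ) else 0
  choose b hb1 hb2 hb3 using h1
  have hv : ∀ i k, b i (p k) = if i = k then 1 else 0 := by
    intro i k
    have h2 := hb3 i (k, k) (KHat_diag E k) 0 ⟨le_rfl, zero_le_one⟩
    unfold pt hh at h2
    rw [sub_zero, one_smul, zero_smul, add_zero, one_mul, zero_mul, add_zero] at h2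
    exact h2
  refine ⟨b, hb1, hb2, hv, fun i e he s hs => ?_⟩
  have h2 := hb3 i e (by
    unfold FF
    exact Finset.mem_union_left _ he) s hs
  rw [hv, hv]
  exact h2

end Pool.Agent.MP4eed4eX.K
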