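import Pool.Agent.Lib.MP_4eed4e_an_XK.KPair

set_option autoImplicit false

/-!
Project X, block K, module KLipG: functions which are affine on the edges are Lipschitz.
-/

namespace Pool.Agent.MP4eed4eX.K

open MeasureTheory Set Filter Topology Pool.Agent.MP4eed4eP

variable {n : ℕ} {p : Fin n → P} {E : Finset (Fin n × Fin n)}

private theorem KLipG_end {e : Fin n × Fin n} (he : e ∈ FF E) {x : P}
    (hx : x ∈ segment ℝ (p e.1) (p e.2)) :
    (∃ i, (i = e.1 ∨ i = e.2) ∧ x = p i) ∨ (e ∈ E ∧ x ∈ openSegment ℝ (p e.1) (p e.2)) := by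
  rw [← insert_endpoints_openSegment] at hx
  rcases hx with hx | hx | hx
  · exact Or.inl ⟨e.1, Or.inl rfl, hx⟩
  · exact Or.inl ⟨e.2, Or.inr rfl, hx⟩
  · rcases Finset.mem_union.1 he with h1 | h1
    · exact Or.inr ⟨h1, hx⟩
    · have h2 : e.1 = e.2 := (Finset.mem_filter.1 h1).2
      rw [← h2, openSegment_same] at hx
      exact Or.inl ⟨e.1, Or.inl rfl, hx⟩

/-- Two different edges (or vertices) meet only in a common vertex. Proof. A point of a closed
segment is an end or in the open segment (`insert_endpoints_openSegment`); two open segments are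
disjoint (`disj`, for `e, f ∈ E`; an open segment of a pair `(k, k)` is the point `p k`), an end is
not in an open segment (`vert`), and two ends which are equal have the same index (`inj`). -/
theorem meet (h : SLG p E) {e f : Fin n × Fin n} (he : e ∈ FF E) (hf : f ∈ FF E) (hne : e ≠ f)
    {x : P} (hxe : x ∈ segment ℝ (p e.1) (p e.2)) (hxf : x ∈ segment ℝ (p f.1) (p f.2)) :
    ∃ i, (i = e.1 ∨ i = e.2) ∧ (i = f.1 ∨ i = f.2) ∧ x = p i := by
  rcases KLipG_end he hxe with ⟨i, hi, hxi⟩ | ⟨hE, hxo⟩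
  · rcases KLipG_end hf hxf with ⟨j, hj, hxj⟩ | ⟨hE', hxo'⟩
    · have hij : i = j := h.inj (hxi.symm.trans hxj)
      exact ⟨i, hi, hij ▸ hj, hxi⟩
    · rw [hxi] at hxo'
      exact absurd hxo' (h.vert f hE' i)
  · rcases KLipG_end hf hxf with ⟨j, hj, hxj⟩ | ⟨hE', hxo'⟩
    · rw [hxj] at hxo
      exact absurd hxo (h.vert e hE j)
    · exact absurd hxo' (Set.disjoint_left.mp (h.disj e hE f hE' hne) hxo)

/-- The estimate for the pairs `(a, b)` and `(c, d)`. -/
private def KLipG_Q (p : Fin n → P) (g : Fin n → ℝ) (a b c d : Fin n) : Prop :=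
  ∃ C : ℝ, 0 ≤ C ∧ ∀ s ∈ Icc (0 : ℝ) 1, ∀ t ∈ Icc (0 : ℝ) 1,
    |((1 - s) * g a + s * g b) - ((1 - t) * g c + t * g d)| ≤
      C * ‖((1 - s) • p a + s • p b) - ((1 - t) • p c + t • p d)‖

private theorem KLipG_one {s : ℝ} (hs : s ∈ Icc (0 : ℝ) 1) : 1 - s ∈ Icc (0 : ℝ) 1 :=
  ⟨by linarith [hs.2], by linarith [hs.1]⟩

private theorem KLipG_flip1 {g : Fin n → ℝ} {a b c d : Fin n} (h : KLipG_Q p g a b c d) :
    KLipG_Q p g b a c d := by
  obtain ⟨C, hC, H⟩ := h
  refine ⟨C, hC, fun s hs t ht => ?_⟩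
  have h1 := H (1 - s) (KLipG_one hs) t ht
  rw [sub_sub_cancel, add_comm (s * g a), add_comm (s • p a)] at h1
  exact h1

private theorem KLipG_flip2 {g : Fin n → ℝ} {a b c d : Fin n} (h : KLipG_Q p g a b c d) :
    KLipG_Q p g a b d c := by
  obtain ⟨C, hC, H⟩ := h
  refine ⟨C, hC, fun s hs t ht => ?_⟩
  have h1 := H s hs (1 - t) (KLipG_one ht)
  rw [sub_sub_cancel, add_comm (t * g c), add_comm (t • p c)] at h1
  exact h1

private theorem KLipG_same (h : SLG p E) (g : Fin n → ℝ) (a b : Fin n) :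
    KLipG_Q p g a b a b :=
  pair_same fun hab => congrArg g (h.inj hab)

private theorem KLipG_L (h : SLG p E) (g : Fin n → ℝ) (i j k : Fin n)
    (hx : j ≠ i → k ≠ i → segment ℝ (p i) (p j) ∩ segment ℝ (p i) (p k) ⊆ {p i}) :
    KLipG_Q p g i j i k := by
  have z1 : (0 : ℝ) ∈ Icc (0 : ℝ) 1 := ⟨le_refl _, zero_le_one⟩
  have c1 : ∀ (s u : ℝ), (1 - s) * u + s * u = u := fun s u => by ring
  have c2 : ∀ (s : ℝ) (u : P), (1 - s) • u + s • u = u := fun s u => by
    rw [← add_smul, sub_add_cancel, one_smul]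
  have c3 : ∀ (u v : ℝ), (1 - 0) * u + 0 * v = u := fun u v => by ring
  have c4 : ∀ (u v : P), (1 - (0 : ℝ)) • u + (0 : ℝ) • v = u := fun u v => by
    rw [sub_zero, one_smul, zero_smul, add_zero]
  by_cases hj : j = i
  · obtain ⟨C, hC, H⟩ := KLipG_same h g i k
    refine ⟨C, hC, fun s hs t ht => ?_⟩
    have h1 := H 0 z1 t ht
    rw [c3, c4] at h1
    rw [hj, c1, c2]
    exact h1
  · by_cases hk : k = i
    · obtain ⟨C, hC, H⟩ := KLipG_same h g i j
      refine ⟨C, hC, fun s hs t ht => ?_⟩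
      have h1 := H s hs 0 z1
      rw [c3, c4] at h1
      rw [hk, c1 t, c2 t]
      exact h1
    · exact pair_meet (fun h1 => hj (h.inj h1)) (fun h1 => hk (h.inj h1)) (hx hj hk) _ _ _

private theorem KLipG_lt (h : SLG p E) {e : Fin n × Fin n} (he : e ∈ FF E) (hn : e.1 ≠ e.2) :
    e.1 < e.2 := by
  rcases Finset.mem_union.1 he with h1 | h1
  · exact h.lt e h1
  · exact absurd (Finset.mem_filter.1 h1).2 hn

private theorem KLipG_X (h : SLG p E) {e f : Fin n × Fin n} (he : e ∈ FF E) (hf : f ∈ FF E)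
    (hne : e ≠ f) {i j k : Fin n} (h1 : e = (i, j) ∨ e = (j, i)) (h2 : f = (i, k) ∨ f = (k, i))
    (hj : j ≠ i) (hk : k ≠ i) : segment ℝ (p i) (p j) ∩ segment ℝ (p i) (p k) ⊆ {p i} := by
  rintro x ⟨x1, x2⟩
  have y1 : x ∈ segment ℝ (p e.1) (p e.2) := by
    rcases h1 with rfl | rfl
    · exact x1
    · rw [segment_symm]; exact x1
  have y2 : x ∈ segment ℝ (p f.1) (p f.2) := by
    rcases h2 with rfl | rfl
    · exact x2
    · rw [segment_symm]; exact x2
  obtain ⟨l, hl1, hl2, hl3⟩ := meet h he hf hne y1 y2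
  have k1 : l = i ∨ l = j := by
    rcases h1 with rfl | rfl
    · exact hl1
    · exact hl1.symm
  have k2 : l = i ∨ l = k := by
    rcases h2 with rfl | rfl
    · exact hl2
    · exact hl2.symm
  rcases k1 with k1 | k1
  · rw [hl3, k1]; rfl
  · rcases k2 with k2 | k2
    · rw [hl3, k2]; rfl
    · exfalso
      have hjk : j = k := k1.symm.trans k2
      subst hjk
      have e1 : e.1 ≠ e.2 := by
        rcases h1 with rfl | rfl
        · exact hj.symm
        · exact hj
      have e2 : f.1 ≠ f.2 := by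
        rcases h2 with rfl | rfl
        · exact hj.symm
        · exact hj
      have e3 := KLipG_lt h he e1
      have e4 := KLipG_lt h hf e2
      rcases h1 with rfl | rfl <;> rcases h2 with rfl | rfl
      · exact hne rfl
      · exact absurd e3 (lt_asymm e4)
      · exact absurd e3 (lt_asymm e4)
      · exact hne rfl

private theorem KLipG_pair (h : SLG p E) (g : Fin n → ℝ) {e f : Fin n × Fin n} (he : e ∈ FF E)
    (hf : f ∈ FF E) : KLipG_Q p g e.1 e.2 f.1 f.2 := by
  by_cases hne : e = f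
  · rw [hne]
    exact KLipG_same h g _ _
  · by_cases a1 : e.1 = f.1
    · have h3 := KLipG_L h g e.1 e.2 f.2 (fun hj hk => KLipG_X h he hf hne (Or.inl rfl)
        (Or.inl (Prod.ext a1.symm rfl)) hj hk)
      rw [← a1]
      exact h3
    · by_cases a2 : e.1 = f.2
      · have h3 := KLipG_L h g e.1 e.2 f.1 (fun hj hk => KLipG_X h he hf hne (Or.inl rfl)
          (Or.inr (Prod.ext rfl a2.symm)) hj hk)
        rw [← a2]
        exact KLipG_flip2 h3
      · by_cases a3 : e.2 = f.1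
        · have h3 := KLipG_L h g e.2 e.1 f.2 (fun hj hk => KLipG_X h he hf hne (Or.inr rfl)
            (Or.inl (Prod.ext a3.symm rfl)) hj hk)
          rw [← a3]
          exact KLipG_flip1 h3
        · by_cases a4 : e.2 = f.2
          · have h3 := KLipG_L h g e.2 e.1 f.1 (fun hj hk => KLipG_X h he hf hne (Or.inr rfl)
              (Or.inr (Prod.ext rfl a4.symm)) hj hk)
            rw [← a4]
            exact KLipG_flip1 (KLipG_flip2 h3)
          · refine pair_disj (Set.disjoint_left.mpr fun x x1 x2 => ?_) _ _ _ _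
            obtain ⟨l, hl1, hl2, -⟩ := meet h he hf hne x1 x2
            rcases hl1 with rfl | rfl <;> rcases hl2 with hl2 | hl2
            · exact a1 hl2
            · exact a2 hl2
            · exact a3 hl2
            · exact a4 hl2

/-- Proof. There are finitely many pairs `e, f`; take the maximum of the constants. `e = f`:
`pair_same`. `e ≠ f` and no common vertex: `pair_disj` (by `meet` the segments are disjoint). One
common vertex `i` (two different pairs `e.1 ≤ e.2`, `f.1 ≤ f.2` have at most one common index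
unless one of them is `(i, i)`): if `f = (i, i)` then `pt p f t = p i` is the point of `e` with the
parameter `0` or `1`, use `pair_same`; otherwise `pair_meet` after replacing `s` by `1 - s` or `t`
by `1 - t` if necessary (four cases). -/
theorem lip_gr (h : SLG p E) (g : Fin n → ℝ) :
    ∃ C : ℝ, 0 ≤ C ∧ ∀ e ∈ FF E, ∀ f ∈ FF E, ∀ s ∈ Icc (0 : ℝ) 1, ∀ t ∈ Icc (0 : ℝ) 1,
      |hh g e s - hh g f t| ≤ C * ‖pt p e s - pt p f t‖ := by
  have key : ∀ e f : Fin n × Fin n, ∃ C : ℝ, e ∈ FF E → f ∈ FF E → 0 ≤ C ∧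
      ∀ s ∈ Icc (0 : ℝ) 1, ∀ t ∈ Icc (0 : ℝ) 1,
        |hh g e s - hh g f t| ≤ C * ‖pt p e s - pt p f t‖ := by
    intro e f
    by_cases h1 : e ∈ FF E ∧ f ∈ FF E
    · obtain ⟨C, hC, H⟩ := KLipG_pair h g h1.1 h1.2
      exact ⟨C, fun _ _ => ⟨hC, H⟩⟩
    · exact ⟨0, fun h2 h3 => absurd ⟨h2, h3⟩ h1⟩
  choose C hC using key
  refine ⟨∑ e ∈ FF E, ∑ f ∈ FF E, |C e f|,
    Finset.sum_nonneg fun e _ => Finset.sum_nonneg fun f _ => abs_nonneg _, ?_⟩
  intro e he f hf s hs t ht
  have h1 : |C e f| ≤ ∑ f ∈ FF E, |C e f| :=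
    Finset.single_le_sum (f := fun f => |C e f|) (fun f _ => abs_nonneg _) hf
  have h2 : ∑ f ∈ FF E, |C e f| ≤ ∑ e ∈ FF E, ∑ f ∈ FF E, |C e f| :=
    Finset.single_le_sum (f := fun e => ∑ f ∈ FF E, |C e f|)
      (fun e _ => Finset.sum_nonneg fun f _ => abs_nonneg _) he
  exact ((hC e f he hf).2 s hs t ht).trans
    (mul_le_mul_of_nonneg_right ((le_abs_self _).trans (h1.trans h2)) (norm_nonneg _))

end Pool.Agent.MP4eed4eX.K
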