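import Pool.Agent.Lib.MP_4eed4e_an_XK.KDefs

set_option autoImplicit false

/-!
Project X, block K, module KMin: the function `mm`.
-/

namespace Pool.Agent.MP4eed4eX.K

open MeasureTheory Set Filter Topology Pool.Agent.MP4eed4eP

variable {a b : P} {α β C : ℝ}

theorem N1_nonneg (v : P) : 0 ≤ N1 v := by
  unfold N1
  positivity

theorem N1_add (v w : P) : N1 (v + w) ≤ N1 v + N1 w := by
  have h1 := abs_add_le v.1 w.1
  have h2 := abs_add_le v.2 w.2
  simp only [N1, Prod.fst_add, Prod.snd_add]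
  linarith

theorem norm_le_N1 (v : P) : ‖v‖ ≤ N1 v := by
  rw [Prod.norm_def, Real.norm_eq_abs, Real.norm_eq_abs]
  unfold N1
  exact max_le (le_add_of_nonneg_right (abs_nonneg _)) (le_add_of_nonneg_left (abs_nonneg _))

theorem N1_le (v : P) : N1 v ≤ 2 * ‖v‖ := by
  have h1 : |v.1| ≤ ‖v‖ := norm_fst_le v
  have h2 : |v.2| ≤ ‖v‖ := norm_snd_le v
  unfold N1
  linarith

/-- The function whose minimum is `mm`. -/
private noncomputable def KMin_F (a b : P) (α β C : ℝ) (x : P) (s : ℝ) : ℝ :=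
  (1 - s) * α + s * β + C * N1 (x - ((1 - s) • a + s • b))

private theorem KMin_cont (a b : P) (α β C : ℝ) (x : P) : Continuous (KMin_F a b α β C x) := by
  unfold KMin_F N1
  fun_prop

private theorem KMin_lower (a b : P) (α β C : ℝ) (x : P) :
    BddBelow ((fun s : ℝ => (1 - s) * α + s * β + C * N1 (x - ((1 - s) • a + s • b))) ''
      Icc 0 1) :=
  (isCompact_Icc.image (KMin_cont a b α β C x)).bddBelow

/-- Proof. A continuous function on the compact interval attains its minimum. -/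
theorem mm_attained (a b : P) (α β C : ℝ) (x : P) : ∃ s ∈ Icc (0 : ℝ) 1,
    mm a b α β C x = (1 - s) * α + s * β + C * N1 (x - ((1 - s) • a + s • b)) := by
  have hne : (Icc (0 : ℝ) 1).Nonempty := ⟨0, by simp⟩
  obtain ⟨s, hs, h⟩ := (isCompact_Icc.image (KMin_cont a b α β C x)).sInf_mem
    (hne.image _)
  exact ⟨s, hs, h.symm⟩

theorem mm_le (a b : P) (α β C : ℝ) (x : P) {s : ℝ} (hs : s ∈ Icc (0 : ℝ) 1) :
    mm a b α β C x ≤ (1 - s) * α + s * β + C * N1 (x - ((1 - s) • a + s • b)) :=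
  csInf_le (KMin_lower a b α β C x) ⟨s, hs, rfl⟩

private theorem KMin_one (a b : P) (α β : ℝ) (hC : 0 ≤ C) (x y : P) :
    mm a b α β C x ≤ mm a b α β C y + C * N1 (x - y) := by
  obtain ⟨s, hs, h⟩ := mm_attained a b α β C y
  have h1 := mm_le a b α β C x hs
  have h2 : N1 (x - ((1 - s) • a + s • b)) ≤
      N1 (x - y) + N1 (y - ((1 - s) • a + s • b)) := by
    have h3 := N1_add (x - y) (y - ((1 - s) • a + s • b))
    rwa [sub_add_sub_cancel] at h3
  have h4 := mul_le_mul_of_nonneg_left h2 hC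
  rw [h]
  linarith

theorem mm_lip (a b : P) (α β : ℝ) (hC : 0 ≤ C) (x y : P) :
    |mm a b α β C x - mm a b α β C y| ≤ C * N1 (x - y) := by
  have h1 := KMin_one (C := C) a b α β hC x y
  have h2 := KMin_one (C := C) a b α β hC y x
  have h3 : N1 (y - x) = N1 (x - y) := by
    unfold N1
    simp only [Prod.fst_sub, Prod.snd_sub]
    rw [abs_sub_comm y.1, abs_sub_comm y.2]
  rw [h3] at h2
  rw [abs_le]
  constructor <;> linarith

end Pool.Agent.MP4eed4eX.K
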