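import Pool.Agent.Lib.MP_4eed4e_an_XK.KDefs

set_option autoImplicit false

/-!
Project X, block K, module KPair: affine functions on two segments are Lipschitz.
-/

namespace Pool.Agent.MP4eed4eX.K

open MeasureTheory Set Filter Topology Pool.Agent.MP4eed4eP

private theorem KPair_mem (a b : P) {s : ℝ} (hs : s ∈ Icc (0 : ℝ) 1) :
    (1 - s) • a + s • b ∈ segment ℝ a b :=
  ⟨1 - s, s, by linarith [hs.2], hs.1, by ring, rfl⟩

/-- Proof. The distance of the two compact segments is positive: the continuous function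
`(s, t) ↦ ‖..‖` has a positive minimum `m` on the compact square `Icc 0 1 ×ˢ Icc 0 1`, the left
side is bounded by `|α| + |β| + |γ| + |δ|`. -/
theorem pair_disj {a b c d : P} (h : Disjoint (segment ℝ a b) (segment ℝ c d)) (α β γ δ : ℝ) :
    ∃ C : ℝ, 0 ≤ C ∧ ∀ s ∈ Icc (0 : ℝ) 1, ∀ t ∈ Icc (0 : ℝ) 1,
      |((1 - s) * α + s * β) - ((1 - t) * γ + t * δ)| ≤
        C * ‖((1 - s) • a + s • b) - ((1 - t) • c + t • d)‖ := by
  have hc : Continuous fun q : ℝ × ℝ =>
      ‖((1 - q.1) • a + q.1 • b) - ((1 - q.2) • c + q.2 • d)‖ := by fun_prop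
  have hK : IsCompact (Icc (0 : ℝ) 1 ×ˢ Icc (0 : ℝ) 1) := isCompact_Icc.prod isCompact_Icc
  have hne : (Icc (0 : ℝ) 1 ×ˢ Icc (0 : ℝ) 1).Nonempty :=
    ⟨(0, 0), ⟨by simp, by simp⟩⟩
  obtain ⟨q, hq, hmin⟩ := hK.exists_isMinOn hne hc.continuousOn
  set m : ℝ := ‖((1 - q.1) • a + q.1 • b) - ((1 - q.2) • c + q.2 • d)‖ with hm
  have hmpos : 0 < m := by
    rw [hm, norm_pos_iff, sub_ne_zero]
    intro he
    have h1 := KPair_mem a b hq.1
    have h2 := KPair_mem c d hq.2
    rw [he] at h1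
    exact Set.disjoint_left.mp h h1 h2
  refine ⟨(|α| + |β| + |γ| + |δ|) / m, by positivity, fun s hs t ht => ?_⟩
  have hle : m ≤ ‖((1 - s) • a + s • b) - ((1 - t) • c + t • d)‖ :=
    hmin (show (s, t) ∈ Icc (0 : ℝ) 1 ×ˢ Icc (0 : ℝ) 1 from ⟨hs, ht⟩)
  have hL : |((1 - s) * α + s * β) - ((1 - t) * γ + t * δ)| ≤ |α| + |β| + |γ| + |δ| := by
    have e1 : |(1 - s) * α| ≤ |α| := by
      rw [abs_mul, abs_of_nonneg (by linarith [hs.2] : (0 : ℝ) ≤ 1 - s)]
      exact mul_le_of_le_one_left (abs_nonneg _) (by linarith [hs.1])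
    have e2 : |s * β| ≤ |β| := by
      rw [abs_mul, abs_of_nonneg hs.1]
      exact mul_le_of_le_one_left (abs_nonneg _) hs.2
    have e3 : |(1 - t) * γ| ≤ |γ| := by
      rw [abs_mul, abs_of_nonneg (by linarith [ht.2] : (0 : ℝ) ≤ 1 - t)]
      exact mul_le_of_le_one_left (abs_nonneg _) (by linarith [ht.1])
    have e4 : |t * δ| ≤ |δ| := by
      rw [abs_mul, abs_of_nonneg ht.1]
      exact mul_le_of_le_one_left (abs_nonneg _) ht.2
    have f1 := abs_sub ((1 - s) * α + s * β) ((1 - t) * γ + t * δ)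
    have f2 := abs_add_le ((1 - s) * α) (s * β)
    have f3 := abs_add_le ((1 - t) * γ) (t * δ)
    linarith
  calc |((1 - s) * α + s * β) - ((1 - t) * γ + t * δ)| ≤ |α| + |β| + |γ| + |δ| := hL
    _ = (|α| + |β| + |γ| + |δ|) / m * m := by field_simp
    _ ≤ (|α| + |β| + |γ| + |δ|) / m * ‖((1 - s) • a + s • b) - ((1 - t) • c + t • d)‖ :=
      mul_le_mul_of_nonneg_left hle (by positivity)

private theorem KPair_pos {a b d : P} (hb : b ≠ a) (hd : d ≠ a)
    (h : segment ℝ a b ∩ segment ℝ a d ⊆ {a}) {s : ℝ} (hs : s ∈ Icc (0 : ℝ) 1) :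
    0 < ‖s • (b - a) - (1 - s) • (d - a)‖ := by
  rw [norm_pos_iff, sub_ne_zero]
  intro he
  set r : ℝ := max s (1 - s) with hr
  have hrpos : 0 < r := by
    rcases le_total s (1 - s) with h1 | h1
    · rw [hr, max_eq_right h1]; linarith
    · rw [hr, max_eq_left h1]; linarith
  have hsr : s / r ∈ Icc (0 : ℝ) 1 :=
    ⟨div_nonneg hs.1 hrpos.le, (div_le_one hrpos).2 (le_max_left _ _)⟩
  have htr : (1 - s) / r ∈ Icc (0 : ℝ) 1 :=
    ⟨div_nonneg (by linarith [hs.2]) hrpos.le, (div_le_one hrpos).2 (le_max_right _ _)⟩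
  have he2 : (s / r) • (b - a) = ((1 - s) / r) • (d - a) := by
    have := congrArg (fun v => r⁻¹ • v) he
    simp only [smul_smul] at this
    rw [div_eq_inv_mul, div_eq_inv_mul]
    exact this
  have m1 := KPair_mem a b hsr
  have m2 := KPair_mem a d htr
  have e1 : (1 - s / r) • a + (s / r) • b = a + (s / r) • (b - a) := by
    rw [smul_sub, sub_smul, one_smul]; abel
  have e2 : (1 - (1 - s) / r) • a + ((1 - s) / r) • d = a + ((1 - s) / r) • (d - a) := by
    rw [smul_sub, sub_smul, one_smul]; abel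
  rw [e1] at m1
  rw [e2, ← he2] at m2
  have hz : a + (s / r) • (b - a) = a := h ⟨m1, m2⟩
  have hz1 : (s / r) • (b - a) = 0 := by simpa using hz
  have hz2 : ((1 - s) / r) • (d - a) = 0 := by rw [← he2]; exact hz1
  rcases le_total s (1 - s) with h1 | h1
  · have : (1 - s) / r = 1 := by rw [hr, max_eq_right h1]; exact div_self (by linarith)
    rw [this, one_smul, sub_eq_zero] at hz2
    exact hd hz2
  · have : s / r = 1 := by rw [hr, max_eq_left h1]; exact div_self (by linarith)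
    rw [this, one_smul, sub_eq_zero] at hz1
    exact hb hz1

/-- Proof. The difference of the points is `s u - t w`, `u = b - a`, `w = d - a`, and the left side
is `|s (β - α) - t (δ - α)| ≤ (s + t) (|β - α| + |δ - α|)`. There is `m > 0` with
`‖s u - t w‖ ≥ m (s + t)` for `s, t ≥ 0`: on the compact set `s + t = 1`, `s, t ≥ 0`, we have
`s u ≠ t w`: otherwise with `r = max s t > 0` the point `a + (s / r) u = a + (t / r) w` is in both
segments, so it is `a`, hence `u = 0` or `w = 0` (one of `s / r`, `t / r` is `1`). Homogeneity. -/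
theorem pair_meet {a b d : P} (hb : b ≠ a) (hd : d ≠ a)
    (h : segment ℝ a b ∩ segment ℝ a d ⊆ {a}) (α β δ : ℝ) :
    ∃ C : ℝ, 0 ≤ C ∧ ∀ s ∈ Icc (0 : ℝ) 1, ∀ t ∈ Icc (0 : ℝ) 1,
      |((1 - s) * α + s * β) - ((1 - t) * α + t * δ)| ≤
        C * ‖((1 - s) • a + s • b) - ((1 - t) • a + t • d)‖ := by
  have hc : Continuous fun s : ℝ => ‖s • (b - a) - (1 - s) • (d - a)‖ := by fun_prop
  obtain ⟨q, hq, hmin⟩ := (isCompact_Icc (a := (0 : ℝ)) (b := 1)).exists_isMinOn
    ⟨0, by simp⟩ hc.continuousOn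
  set m : ℝ := ‖q • (b - a) - (1 - q) • (d - a)‖ with hm
  have hmpos : 0 < m := KPair_pos hb hd h hq
  refine ⟨(|β - α| + |δ - α|) / m, by positivity, fun s hs t ht => ?_⟩
  have ed : ((1 - s) • a + s • b) - ((1 - t) • a + t • d) = s • (b - a) - t • (d - a) := by
    rw [smul_sub, smul_sub, sub_smul, sub_smul, one_smul]; abel
  have key : m * (s + t) ≤ ‖s • (b - a) - t • (d - a)‖ := by
    rcases eq_or_lt_of_le (add_nonneg hs.1 ht.1) with h0 | h0
    · rw [← h0, mul_zero]; exact norm_nonneg _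
    · have hmem : s / (s + t) ∈ Icc (0 : ℝ) 1 :=
        ⟨div_nonneg hs.1 h0.le, (div_le_one h0).2 (by linarith [ht.1])⟩
      have hle : m ≤ ‖(s / (s + t)) • (b - a) - (1 - s / (s + t)) • (d - a)‖ := hmin hmem
      have e1 : (1 - s / (s + t)) = t / (s + t) := by field_simp; ring
      have e2 : s • (b - a) - t • (d - a) =
          (s + t) • ((s / (s + t)) • (b - a) - (t / (s + t)) • (d - a)) := by
        rw [smul_sub (s + t), smul_smul, smul_smul, mul_div_cancel₀ _ h0.ne',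
          mul_div_cancel₀ _ h0.ne']
      rw [e2, norm_smul, Real.norm_of_nonneg h0.le, mul_comm m]
      rw [e1] at hle
      exact mul_le_mul_of_nonneg_left hle h0.le
  rw [ed]
  have hL : |((1 - s) * α + s * β) - ((1 - t) * α + t * δ)| ≤
      (s + t) * (|β - α| + |δ - α|) := by
    have e : ((1 - s) * α + s * β) - ((1 - t) * α + t * δ) = s * (β - α) - t * (δ - α) := by ring
    rw [e]
    have f1 := abs_sub (s * (β - α)) (t * (δ - α))
    rw [abs_mul, abs_mul, abs_of_nonneg hs.1, abs_of_nonneg ht.1] at f1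
    have g1 := mul_nonneg ht.1 (abs_nonneg (β - α))
    have g2 := mul_nonneg hs.1 (abs_nonneg (δ - α))
    nlinarith
  calc |((1 - s) * α + s * β) - ((1 - t) * α + t * δ)|
      ≤ (s + t) * (|β - α| + |δ - α|) := hL
    _ = (|β - α| + |δ - α|) / m * (m * (s + t)) := by field_simp
    _ ≤ (|β - α| + |δ - α|) / m * ‖s • (b - a) - t • (d - a)‖ :=
      mul_le_mul_of_nonneg_left key (by positivity)

/-- Proof. The difference of the points is `(t - s) (a - b)`, the left side
`|t - s| |α - β|`. -/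
theorem pair_same {a b : P} {α β : ℝ} (h : a = b → α = β) :
    ∃ C : ℝ, 0 ≤ C ∧ ∀ s ∈ Icc (0 : ℝ) 1, ∀ t ∈ Icc (0 : ℝ) 1,
      |((1 - s) * α + s * β) - ((1 - t) * α + t * β)| ≤
        C * ‖((1 - s) • a + s • b) - ((1 - t) • a + t • b)‖ := by
  have e : ∀ s t : ℝ, ((1 - s) * α + s * β) - ((1 - t) * α + t * β) = (t - s) * (α - β) :=
    fun s t => by ring
  by_cases hab : a = b
  · refine ⟨0, le_refl _, fun s _ t _ => ?_⟩
    rw [e, h hab, sub_self, mul_zero, abs_zero, zero_mul]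
  · have hpos : 0 < ‖a - b‖ := norm_pos_iff.2 (sub_ne_zero.2 hab)
    refine ⟨|α - β| / ‖a - b‖, by positivity, fun s _ t _ => le_of_eq ?_⟩
    have ed : ((1 - s) • a + s • b) - ((1 - t) • a + t • b) = (t - s) • (a - b) := by
      rw [smul_sub, sub_smul, sub_smul, sub_smul, sub_smul, one_smul]; abel
    rw [e, ed, norm_smul, abs_mul, Real.norm_eq_abs]
    field_simp

end Pool.Agent.MP4eed4eX.K
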